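import Mathlib

set_option autoImplicit false
set_option linter.unusedSectionVars false

namespace Q226.HLm

open MvPolynomial Finset

variable {R : Type} [CommRing R] [IsDomain R] [CharZero R] {n : ℕ}

/-- the substitution `x_j := x_i` -/
noncomputable def glue (i j : Fin n) : MvPolynomial (Fin n) R →ₐ[R] MvPolynomial (Fin n) R :=
  aeval fun k => if k = j then X i else X k

lemma dvd_sub_glue (i j : Fin n) (g : MvPolynomial (Fin n) R) :
    (X j - X i : MvPolynomial (Fin n) R) ∣ g - glue i j g := by
  induction g using MvPolynomial.induction_on with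
  | C a => simp [glue, algebraMap_eq]
  | add p q hp hq =>
    rw [map_add, show p + q - (glue i j p + glue i j q) = (p - glue i j p) + (q - glue i j q) by ring]
    exact dvd_add hp hq
  | mul_X p k hp =>
    rw [map_mul, show p * X k - glue i j p * glue i j (X k) =
      (p - glue i j p) * X k + glue i j p * (X k - glue i j (X k)) by ring]
    apply dvd_add (Dvd.dvd.mul_right hp _)
    apply Dvd.dvd.mul_left
    by_cases hk : k = j
    · subst hk
      simp [glue]
    · simp [glue, hk]

lemma dvd_iff_glue (i j : Fin n) (g : MvPolynomial (Fin n) R) :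
    (X j - X i : MvPolynomial (Fin n) R) ∣ g ↔ glue i j g = 0 := by
  constructor
  · rintro ⟨h, rfl⟩
    rw [map_mul]
    have : glue i j (X j - X i : MvPolynomial (Fin n) R) = 0 := by
      by_cases hij : i = j
      · subst hij; simp [glue]
      · simp [glue, hij]
    rw [this, zero_mul]
  · intro h
    have := dvd_sub_glue i j g
    rwa [h, sub_zero] at this

lemma prime_sub {i j : Fin n} (hij : i < j) : Prime (X j - X i : MvPolynomial (Fin n) R) := by
  refine ⟨?_, ?_, ?_⟩
  · intro h
    rw [sub_eq_zero] at h
    exact hij.ne' (X_injective h)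
  · intro h
    have h1 : glue i j (X j - X i : MvPolynomial (Fin n) R) = 0 := (dvd_iff_glue i j _).mp dvd_rfl
    have h2 := h.map (glue (R := R) i j)
    rw [h1] at h2
    exact not_isUnit_zero h2
  · intro a b hab
    rw [dvd_iff_glue, map_mul, mul_eq_zero] at hab
    rwa [dvd_iff_glue, dvd_iff_glue]

lemma not_dvd {i j k l : Fin n} (hij : i < j) (hkl : k < l) (hne : (i, j) ≠ (k, l)) :
    ¬ (X j - X i : MvPolynomial (Fin n) R) ∣ (X l - X k) := by
  rw [dvd_iff_glue]
  intro h
  rw [map_sub, sub_eq_zero] at h
  simp only [glue, aeval_X] at h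
  by_cases h1 : l = j
  · rw [if_pos h1] at h
    by_cases h2 : k = j
    · omega
    · rw [if_neg h2] at h
      have := X_injective h
      exact hne (by rw [this, h1])
  · rw [if_neg h1] at h
    by_cases h2 : k = j
    · rw [if_pos h2] at h
      have := X_injective h
      omega
    · rw [if_neg h2] at h
      have := X_injective h
      omega

lemma prod_dvd (g : MvPolynomial (Fin n) R) (s : Finset (Fin n × Fin n))
    (hs : ∀ p ∈ s, p.1 < p.2) (h : ∀ p ∈ s, (X p.2 - X p.1 : MvPolynomial (Fin n) R) ∣ g) :
    (∏ p ∈ s, (X p.2 - X p.1 : MvPolynomial (Fin n) R)) ∣ g := by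
  induction s using Finset.induction_on with
  | empty => simp
  | insert a s ha ih =>
    obtain ⟨q, hq⟩ := ih (fun p hp => hs p (mem_insert_of_mem hp))
      (fun p hp => h p (mem_insert_of_mem hp))
    have hpr := prime_sub (R := R) (hs a (mem_insert_self a s))
    have hd := h a (mem_insert_self a s)
    rw [hq] at hd
    rcases hpr.dvd_or_dvd hd with h1 | h1
    · rw [hpr.dvd_finset_prod_iff] at h1
      obtain ⟨p, hp, h2⟩ := h1
      exfalso
      refine not_dvd (hs a (mem_insert_self a s)) (hs p (mem_insert_of_mem hp)) ?_ h2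
      intro h3
      have : a = p := h3
      exact ha (this ▸ hp)
    · obtain ⟨r, hr⟩ := h1
      refine ⟨r, ?_⟩
      rw [prod_insert ha, hq, hr]
      ring

/-- pairs `i < j` -/
def prs (n : ℕ) : Finset (Fin n × Fin n) := univ.filter fun p => p.1 < p.2

/-- the Vandermonde product at a point -/
def vdm {K : Type} [CommRing K] (ξ : Fin n → K) : K := ∏ p ∈ prs n, (ξ p.2 - ξ p.1)

lemma vdm_eq {K : Type} [CommRing K] (ξ : Fin n → K) : vdm ξ = (Matrix.vandermonde ξ).det := by
  rw [Matrix.det_vandermonde, vdm, prs]
  rw [Finset.prod_filter, ← Finset.univ_product_univ, Finset.prod_product]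
  apply Finset.prod_congr rfl
  intro i _
  rw [← Finset.prod_filter]
  apply Finset.prod_congr
  · ext j; simp
  · intros; rfl

lemma vdm_perm {K : Type} [CommRing K] (ξ : Fin n → K) (σ : Equiv.Perm (Fin n)) :
    vdm (ξ ∘ σ) = (Equiv.Perm.sign σ : ℤ) * vdm ξ := by
  rw [vdm_eq, vdm_eq]
  have : Matrix.vandermonde (ξ ∘ σ) = (Matrix.vandermonde ξ).submatrix σ id := by
    ext i j
    simp [Matrix.vandermonde]
  rw [this, Matrix.det_permute]

lemma vdm_ne_zero {K : Type} [Field K] (ξ : Fin n → K) (h : Function.Injective ξ) : vdm ξ ≠ 0 := by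
  rw [vdm, Finset.prod_ne_zero_iff]
  intro p hp
  rw [prs, mem_filter] at hp
  rw [sub_ne_zero]
  exact fun h1 => (hp.2.ne') (h h1)

/-- an alternating polynomial is a multiple of the Vandermonde product -/
theorem alt_dvd (g : MvPolynomial (Fin n) R)
    (h : ∀ i j : Fin n, i < j → rename (Equiv.swap i j) g = -g) :
    vdm (X : Fin n → MvPolynomial (Fin n) R) ∣ g := by
  apply prod_dvd g (prs n)
  · intro p hp
    rw [prs, mem_filter] at hp
    exact hp.2
  · intro p hp
    rw [prs, mem_filter] at hp
    rw [dvd_iff_glue]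
    have h1 : glue p.1 p.2 (rename (Equiv.swap p.1 p.2) g) = glue p.1 p.2 g := by
      unfold glue
      rw [aeval_rename]
      congr 2
      funext k
      simp only [Function.comp_apply]
      by_cases h1 : k = p.1
      · subst h1; simp
      · by_cases h2 : k = p.2
        · rw [h2]; simp
        · rw [Equiv.swap_apply_of_ne_of_ne h1 h2]
    rw [h _ _ hp.2, map_neg] at h1
    have h2 : (2 : MvPolynomial (Fin n) R) * glue p.1 p.2 g = 0 := by
      linear_combination -h1
    rcases mul_eq_zero.mp h2 with h3 | h3
    · exact absurd h3 two_ne_zero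
    · exact h3

end Q226.HLm
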