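import Mathlib

set_option autoImplicit false
set_option linter.unusedSectionVars false

namespace Q226.HLm

open MvPolynomial Finset

variable {R : Type} [CommRing R] [Algebra ℚ R]

/-- A polynomial in `p_1, p_2, …` written in `n` variables. -/
noncomputable def pev (R : Type) [CommRing R] (n : ℕ) :
    MvPolynomial ℕ R →ₐ[R] MvPolynomial (Fin n) R :=
  aeval fun k => psum (Fin n) R (k + 1)

lemma psum_hom (n k : ℕ) : (psum (Fin n) R k).IsHomogeneous k := by
  unfold psum
  apply IsHomogeneous.sum
  intro i _
  exact isHomogeneous_X_pow i k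

lemma esymm_mem (r : ℕ) : ∀ k : ℕ, esymm (Fin r) R k ∈ (pev R r).range := by
  intro k
  induction k using Nat.strong_induction_on with
  | _ k ih =>
    rcases Nat.eq_zero_or_pos k with hk | hk
    · subst hk
      rw [esymm_zero]
      exact Subalgebra.one_mem _
    · have h := MvPolynomial.mul_esymm_eq_sum (Fin r) R k
      have h1 : (k : MvPolynomial (Fin r) R) * esymm (Fin r) R k ∈ (pev R r).range := by
        rw [h]
        apply Subalgebra.mul_mem
        · exact Subalgebra.pow_mem _ (Subalgebra.neg_mem _ (Subalgebra.one_mem _)) _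
        · apply Subalgebra.sum_mem
          intro a ha
          rw [Finset.mem_filter, Finset.HasAntidiagonal.mem_antidiagonal] at ha
          obtain ⟨ha1, ha2⟩ := ha
          apply Subalgebra.mul_mem
          · apply Subalgebra.mul_mem
            · exact Subalgebra.pow_mem _ (Subalgebra.neg_mem _ (Subalgebra.one_mem _)) _
            · exact ih _ ha2
          · refine ⟨X (a.2 - 1), ?_⟩
            have : a.2 - 1 + 1 = a.2 := by omega
            simp only [pev, AlgHom.toRingHom_eq_coe, RingHom.coe_coe, aeval_X, this]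
      have h2 : esymm (Fin r) R k =
          (algebraMap ℚ R ((k : ℚ)⁻¹)) • ((k : MvPolynomial (Fin r) R) * esymm (Fin r) R k) := by
        have h3 : (k : MvPolynomial (Fin r) R) = C (algebraMap ℚ R (k : ℚ)) := by simp
        rw [h3, ← smul_eq_C_mul, smul_smul, ← map_mul,
          inv_mul_cancel₀ (by exact_mod_cast hk.ne'), map_one, one_smul]
      rw [h2]
      exact Subalgebra.smul_mem _ h1 _

theorem psum_gen (r : ℕ) (g : MvPolynomial (Fin r) R) (hg : g.IsSymmetric) :
    ∃ F, pev R r F = g := by
  obtain ⟨p, hp⟩ := MvPolynomial.esymmAlgHom_surjective (σ := Fin r) (R := R) (n := r)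
    (by simp) ⟨g, hg⟩
  have h2 : g = aeval (fun i : Fin r ↦ esymm (Fin r) R (i + 1)) p := by
    have h1 : g = ((esymmAlgHom (Fin r) R r p : symmetricSubalgebra (Fin r) R) :
        MvPolynomial (Fin r) R) := by rw [hp]
    rw [h1]
    exact esymmAlgHom_apply p
  have : g ∈ (pev R r).range := by
    rw [h2]
    clear h2 hp
    induction p using MvPolynomial.induction_on with
    | C a =>
      rw [← algebraMap_eq, AlgHom.commutes]
      exact Subalgebra.algebraMap_mem _ _
    | add p q hp hq =>
      rw [map_add]
      exact Subalgebra.add_mem _ hp hq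
    | mul_X p i hp =>
      rw [map_mul, aeval_X]
      exact Subalgebra.mul_mem _ hp (esymm_mem r _)
  exact this

lemma pev_monomial_hom (n : ℕ) (d : ℕ →₀ ℕ) (c : R) :
    (pev R n (monomial d c)).IsHomogeneous (Finsupp.weight (fun k : ℕ => k + 1) d) := by
  unfold pev
  rw [aeval_monomial, Finsupp.prod, algebraMap_eq]
  have h : Finsupp.weight (fun k : ℕ => k + 1) d = 0 + ∑ k ∈ d.support, (k + 1) * d k := by
    rw [Finsupp.weight_apply, Finsupp.sum, zero_add]
    exact Finset.sum_congr rfl fun k _ => by rw [smul_eq_mul, mul_comm]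
  rw [h]
  apply IsHomogeneous.mul (isHomogeneous_C _ _)
  apply IsHomogeneous.prod
  intro k _
  exact (psum_hom n (k + 1)).pow (d k)

lemma hom_comp (n N : ℕ) (F : MvPolynomial ℕ R) :
    homogeneousComponent N (pev R n F) =
      pev R n (weightedHomogeneousComponent (fun k : ℕ => k + 1) N F) := by
  induction F using MvPolynomial.induction_on' with
  | monomial d c =>
    rw [homogeneousComponent_of_mem (pev_monomial_hom n d c),
      weightedHomogeneousComponent_of_mem
        (isWeightedHomogeneous_monomial (fun k : ℕ => k + 1) d c rfl)]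
    split_ifs <;> simp
  | add p q hp hq => simp only [map_add, hp, hq]

lemma aeval_cons_zero (n : ℕ) (g : MvPolynomial (Fin (n + 1)) R) :
    aeval (Fin.cons 0 X : Fin (n + 1) → MvPolynomial (Fin n) R) g =
      (finSuccEquiv R n g).coeff 0 := by
  induction g using MvPolynomial.induction_on with
  | C a => simp [algebraMap_eq, finSuccEquiv_apply]
  | add p q hp hq => simp only [map_add, hp, hq, Polynomial.coeff_add]
  | mul_X p i hp =>
    rw [map_mul, map_mul, hp, Polynomial.mul_coeff_zero, aeval_X]
    refine Fin.cases ?_ (fun j => ?_) i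
    · rw [finSuccEquiv_X_zero]
      simp
    · rw [finSuccEquiv_X_succ]
      simp

lemma ext_family (N : ℕ) (g : ∀ n, MvPolynomial (Fin n) R) (hsym : ∀ n, (g n).IsSymmetric)
    (hhom : ∀ n, (g n).IsHomogeneous N)
    (hstab : ∀ n, aeval (Fin.cons 0 X : Fin (n + 1) → MvPolynomial (Fin n) R) (g (n + 1)) = g n)
    (hN : g N = 0) : ∀ n, g n = 0 := by
  have hlow : ∀ n, n ≤ N → g n = 0 := by
    intro n hn
    refine Nat.decreasingInduction' (fun k _ _ hk => ?_) hn hN
    rw [← hstab k, hk, map_zero]
  have hhigh : ∀ k, g (N + k) = 0 := by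
    intro k
    induction k with
    | zero => simpa using hN
    | succ k ih =>
      have h0 : ∀ β : Fin (N + k) →₀ ℕ, coeff (β.cons 0) (g (N + k + 1)) = 0 := by
        intro β
        rw [← finSuccEquiv_coeff_coeff, ← aeval_cons_zero, hstab, ih, coeff_zero]
      change g (N + k + 1) = 0
      ext α
      rw [coeff_zero]
      by_contra hne
      have hdeg := hhom (N + k + 1) hne
      have hi : ∃ i, α i = 0 := by
        by_contra hcon
        push Not at hcon
        have h1 : ∑ i : Fin (N + k + 1), 1 ≤ ∑ i : Fin (N + k + 1), α i :=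
          Finset.sum_le_sum fun i _ => Nat.one_le_iff_ne_zero.mpr (hcon i)
        have h2 : (Finsupp.weight 1) α = ∑ i : Fin (N + k + 1), α i := by
          rw [Finsupp.weight_apply, Finsupp.sum_fintype _ _ (by simp)]
          simp
        rw [← h2, hdeg] at h1
        simp at h1
      obtain ⟨i, hi⟩ := hi
      apply hne
      have hs := hsym (N + k + 1) (Equiv.swap 0 i)
      rw [← hs]
      have h3 : α = Finsupp.mapDomain (Equiv.swap 0 i) (α.mapDomain (Equiv.swap 0 i)) := by
        rw [← Finsupp.mapDomain_comp]
        have : (⇑(Equiv.swap (0 : Fin (N + k + 1)) i) ∘ ⇑(Equiv.swap (0 : Fin (N + k + 1)) i)) = id := by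
          funext x
          simp
        rw [this, Finsupp.mapDomain_id]
      rw [h3, coeff_rename_mapDomain _ (Equiv.injective _)]
      have h4 : (α.mapDomain (Equiv.swap 0 i)) 0 = 0 := by
        have := Finsupp.mapDomain_apply (Equiv.swap (0 : Fin (N + k + 1)) i).injective α i
        rw [Equiv.swap_apply_right] at this
        rw [this, hi]
      have h5 : α.mapDomain (Equiv.swap 0 i) = (Finsupp.tail (α.mapDomain (Equiv.swap 0 i))).cons 0 := by
        have := Finsupp.cons_tail (α.mapDomain (Equiv.swap 0 i))
        rw [h4] at this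
        exact this.symm
      rw [h5]
      exact h0 _
  intro n
  rcases le_total n N with h | h
  · exact hlow n h
  · have := hhigh (n - N)
    rwa [show N + (n - N) = n by omega] at this

lemma pev_sym (n : ℕ) (F : MvPolynomial ℕ R) : (pev R n F).IsSymmetric := by
  intro e
  unfold pev
  rw [← AlgHom.comp_apply]
  congr 1
  apply MvPolynomial.algHom_ext
  intro k
  simp [rename_psum]

lemma pev_stab (n : ℕ) (F : MvPolynomial ℕ R) :
    aeval (Fin.cons 0 X : Fin (n + 1) → MvPolynomial (Fin n) R) (pev R (n + 1) F) = pev R n F := by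
  unfold pev
  rw [← AlgHom.comp_apply]
  congr 1
  apply MvPolynomial.algHom_ext
  intro k
  simp [psum, Fin.sum_univ_succ]

theorem exists_F (N : ℕ) (f : ∀ n, MvPolynomial (Fin n) R) (hsym : ∀ n, (f n).IsSymmetric)
    (hhom : ∀ n, (f n).IsHomogeneous N)
    (hstab : ∀ n, aeval (Fin.cons 0 X : Fin (n + 1) → MvPolynomial (Fin n) R) (f (n + 1)) = f n) :
    ∃ F, ∀ n, f n = pev R n F := by
  obtain ⟨G, hG⟩ := psum_gen N (f N) (hsym N)
  refine ⟨weightedHomogeneousComponent (fun k : ℕ => k + 1) N G, ?_⟩
  have key := ext_family N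
    (fun n => f n - pev R n (weightedHomogeneousComponent (fun k : ℕ => k + 1) N G))
    (fun n => ?_) (fun n => ?_) (fun n => ?_) ?_
  · intro n
    exact sub_eq_zero.mp (key n)
  · intro e
    rw [map_sub, hsym n e, pev_sym n _ e]
  · apply IsHomogeneous.sub (hhom n)
    rw [← hom_comp]
    exact homogeneousComponent_isHomogeneous _ _
  · rw [map_sub, hstab, pev_stab]
  · rw [← hom_comp, hG, homogeneousComponent_of_mem (hhom N)]
    simp

end Q226.HLm
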