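import Pool.Agent.Q226.HLm.Crit

set_option autoImplicit false
set_option linter.unusedSectionVars false

namespace Q226.HLm

open MvPolynomial Finset

variable {R : Type} [CommRing R] [Algebra ℚ R] {A : Type} [CommRing A] [Algebra R A]

/-- the value of a family of polynomials at a list of points -/
noncomputable def ev (f : ∀ n, MvPolynomial (Fin n) R) (l : List A) : A := aeval l.get (f l.length)

/-- power sum of a list -/
def psl (k : ℕ) (l : List A) : A := (l.map (· ^ k)).sum

lemma ev_eq (F : MvPolynomial ℕ R) (f : ∀ n, MvPolynomial (Fin n) R)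
    (hF : ∀ n, f n = pev R n F) (l : List A) :
    ev f l = aeval (fun k => psl (k + 1) l) F := by
  unfold ev
  rw [hF, pev, ← AlgHom.comp_apply]
  congr 1
  apply MvPolynomial.algHom_ext
  intro k
  simp only [AlgHom.coe_comp, Function.comp_apply, aeval_X, psum, map_sum, map_pow, psl]
  rw [← List.sum_ofFn]
  congr 1
  apply List.ext_get
  · simp
  · intro i h1 h2
    simp

/-- add `x, -x` for every entry of the first list -/
def dbl : List A → List A → List A
  | [], acc => acc
  | x :: l, acc => x :: -x :: dbl l acc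

lemma ev_dbl (f : ∀ n, MvPolynomial (Fin n) R)
    (hcan : ∀ (t : A) (l : List A), ev f (t :: -t :: l) = ev f l) (l acc : List A) :
    ev f (dbl l acc) = ev f acc := by
  induction l with
  | nil => rfl
  | cons x l ih => rw [dbl, hcan, ih]

lemma psl_dbl (k : ℕ) (l acc : List A) :
    psl k (dbl l acc) = (1 + (-1) ^ k) * psl k l + psl k acc := by
  induction l with
  | nil => simp [dbl, psl]
  | cons x l ih =>
    have h1 : psl k (dbl (x :: l) acc) = x ^ k + ((-x) ^ k + psl k (dbl l acc)) := by
      simp [dbl, psl]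
    have h2 : psl k (x :: l) = x ^ k + psl k l := by simp [psl]
    rw [h1, h2, ih, neg_pow]
    ring

lemma psl_iter (k s : ℕ) (l : List A) :
    psl k ((dbl l)^[s] l) = (1 + s * (1 + (-1) ^ k)) * psl k l := by
  induction s with
  | zero => simp
  | succ s ih =>
    rw [Function.iterate_succ_apply', psl_dbl, ih]
    push_cast
    ring

lemma ev_iter (f : ∀ n, MvPolynomial (Fin n) R)
    (hcan : ∀ (t : A) (l : List A), ev f (t :: -t :: l) = ev f l) (s : ℕ) (l : List A) :
    ev f ((dbl l)^[s] l) = ev f l := by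
  induction s with
  | zero => rfl
  | succ s ih => rw [Function.iterate_succ_apply', ev_dbl f hcan, ih]

theorem crit [IsDomain R] (f : ∀ n, MvPolynomial (Fin n) R)
    (hF : ∃ F, ∀ n, f n = pev R n F)
    (hcan : ∀ (n : ℕ) (t : MvPolynomial (Fin n) R) (l : List (MvPolynomial (Fin n) R)),
      ev f (t :: -t :: l) = ev f l) :
    ∃ Φ : MvPolynomial ℕ R, ∀ n, f n = aeval (fun k => psum (Fin n) R (2 * k + 1)) Φ := by
  obtain ⟨F, hF⟩ := hF
  refine ⟨aeval (fun k => if Even k then X (k / 2) else 0) F, fun n => ?_⟩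
  have hps : ∀ k, psl k (List.ofFn (X : Fin n → MvPolynomial (Fin n) R)) = psum (Fin n) R k := by
    intro k
    unfold psl psum
    rw [List.map_ofFn, List.sum_ofFn]
    rfl
  have hval : ∀ s : ℕ, aeval (fun k => (1 + (s : MvPolynomial (Fin n) R) * (1 + (-1) ^ (k + 1))) *
      psum (Fin n) R (k + 1)) F = f n := by
    intro s
    have h1 := ev_iter f (hcan n) s (List.ofFn (X : Fin n → MvPolynomial (Fin n) R))
    rw [ev_eq F f hF, ev_eq F f hF] at h1
    simp only [psl_iter, hps] at h1
    rw [h1, hF n]
    rfl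
  set G : Polynomial (MvPolynomial (Fin n) R) :=
    aeval (fun k => (1 + Polynomial.X * (1 + (-1) ^ (k + 1))) *
      Polynomial.C (psum (Fin n) R (k + 1))) F with hG
  have heval : ∀ z : MvPolynomial (Fin n) R, Polynomial.eval z G =
      aeval (fun k => (1 + z * (1 + (-1) ^ (k + 1))) * psum (Fin n) R (k + 1)) F := by
    intro z
    have h1 : Polynomial.eval z G = ((Polynomial.aeval z).restrictScalars R) G := by
      simp [Polynomial.aeval_def, Polynomial.eval₂_eq_eval_map]
    rw [h1, hG, ← AlgHom.comp_apply]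
    congr 1
    apply MvPolynomial.algHom_ext
    intro k
    simp
  have hconst : G = Polynomial.C (f n) := by
    apply Polynomial.eq_of_infinite_eval_eq
    have : CharZero R := algebraRat.charZero R
    apply Set.Infinite.mono (s := Set.range (fun s : ℕ => (s : MvPolynomial (Fin n) R)))
    · rintro _ ⟨s, rfl⟩
      simp only [Set.mem_ofPred_eq, Polynomial.eval_C]
      rw [heval, hval]
    · exact Set.infinite_range_of_injective Nat.cast_injective
  have h2 := heval (C (algebraMap ℚ R (-1 / 2)))
  rw [hconst, Polynomial.eval_C] at h2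
  rw [h2, ← AlgHom.comp_apply]
  congr 1
  apply MvPolynomial.algHom_ext
  intro k
  have h3 : (C (algebraMap ℚ R (-1 / 2)) : MvPolynomial (Fin n) R) * 2 = -1 := by
    have : (2 : MvPolynomial (Fin n) R) = C (algebraMap ℚ R 2) := by
      rw [map_ofNat]
      exact (map_ofNat C 2).symm
    rw [this, ← C_mul, ← map_mul, show (-1 / 2 : ℚ) * 2 = -1 by norm_num, map_neg, map_one,
      C_neg, C_1]
  simp only [aeval_X, AlgHom.coe_comp, Function.comp_apply]
  rcases Nat.even_or_odd k with hk | hk
  · rw [if_pos hk, aeval_X]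
    have h4 : 2 * (k / 2) + 1 = k + 1 := by
      obtain ⟨m, rfl⟩ := hk
      omega
    rw [h4, pow_succ, hk.neg_one_pow]
    ring
  · rw [if_neg (Nat.not_even_iff_odd.mpr hk), map_zero, pow_succ, hk.neg_one_pow]
    have : (1 + C (algebraMap ℚ R (-1 / 2)) * (1 + -1 * -1) : MvPolynomial (Fin n) R) = 0 := by
      rw [show (1 + -1 * -1 : MvPolynomial (Fin n) R) = 2 by ring, h3]
      ring
    rw [this, zero_mul]

end Q226.HLm
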