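import Mathlib

/-!
Hall-Littlewood polynomials, the weight `ω(λ)` and the weighted sum `w(x; t) = ∑ ω(λ) P_λ(x; t)`
of `MP_f6dccc_co`, in any finite number of variables.
-/

set_option autoImplicit false

namespace Q226.HLm

open MvPolynomial Finset

/-- the coefficient ring `ℚ[a, b, c, d]` -/
abbrev Coef : Type := MvPolynomial (Fin 4) ℚ

/-- the indeterminate `a` -/
noncomputable def ca : Coef := X 0
/-- the indeterminate `b` -/
noncomputable def cb : Coef := X 1
/-- the indeterminate `c` -/
noncomputable def cc : Coef := X 2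
/-- the indeterminate `d` -/
noncomputable def cd : Coef := X 3

/-- the weight `ω` of a partition given by the list of its rows: the rows number `1, 3, 5, …` are
filled with `a, b, a, b, …` and the rows number `2, 4, …` with `c, d, c, d, …`, so that a row of
length `r` contributes `a ^ ⌈r / 2⌉ b ^ ⌊r / 2⌋`, respectively `c ^ ⌈r / 2⌉ d ^ ⌊r / 2⌋` -/
noncomputable def omega : List ℕ → Coef
  | [] => 1
  | [r] => ca ^ ((r + 1) / 2) * cb ^ (r / 2)
  | r :: s :: l => (ca ^ ((r + 1) / 2) * cb ^ (r / 2)) * (cc ^ ((s + 1) / 2) * cd ^ (s / 2)) *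
      omega l

/-- the field of rational functions in `x_1, …, x_n` over `ℚ[a, b, c, d]` -/
abbrev Rat (n : ℕ) : Type := FractionRing (MvPolynomial (Fin n) Coef)

/-- the variables -/
noncomputable def x (n : ℕ) (i : Fin n) : Rat n := algebraMap (MvPolynomial (Fin n) Coef) (Rat n) (X i)

/-- the distinct rearrangements of `(λ_1, …, λ_n)` (the partition `λ` of `N` is filled up by zeros;
there are none if `λ` has more than `n` parts) -/
def rearr (n : ℕ) {N : ℕ} (p : N.Partition) : Finset (Fin n → ℕ) :=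
  (Finset.Nat.antidiagonalTuple n N).filter fun α =>
    ((univ : Finset (Fin n)).val.map α).filter (· ≠ 0) = p.parts

/-- the Hall-Littlewood polynomial `P_λ(x_1, …, x_n; t)`, by the formula (III.2.2) of Macdonald:
the sum over all distinct rearrangements `α` of `(λ_1, …, λ_n)` of
`x ^ α ∏_{α_i > α_j} (x_i - t x_j) / (x_i - x_j)` -/
noncomputable def HL (n : ℕ) (t : ℚ) {N : ℕ} (p : N.Partition) : Rat n :=
  ∑ α ∈ rearr n p, (∏ i, x n i ^ α i) *
    ∏ i, ∏ j, if α j < α i then (x n i - algebraMap ℚ (Rat n) t * x n j) / (x n i - x n j) else 1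

/-- `w(x_1, …, x_n; t) = ∑_λ ω(λ) P_λ(x_1, …, x_n; t)`; the coefficient of `z ^ N` is the part of
degree `N`, the sum over the partitions of `N` -/
noncomputable def w (n : ℕ) (t : ℚ) : PowerSeries (Rat n) :=
  PowerSeries.mk fun N => ∑ p : N.Partition,
    algebraMap Coef (Rat n) (omega (p.parts.sort (· ≥ ·))) * HL n t p

/-- the coefficient of `p_{2m}` in the correction: `a ^ m c ^ m / (2m)` for odd `m`, and
`a ^ (m/2) c ^ (m/2) (a ^ (m/2) c ^ (m/2) - 2 b ^ (m/2) d ^ (m/2)) / (2m)` for even `m ≥ 2` -/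
noncomputable def corrCoef (m : ℕ) : Coef :=
  if m = 0 then 0
  else if Odd m then C (1 / (2 * m) : ℚ) * (ca ^ m * cc ^ m)
  else C (1 / (2 * m) : ℚ) *
    (ca ^ (m / 2) * cc ^ (m / 2) * (ca ^ (m / 2) * cc ^ (m / 2) - 2 * (cb ^ (m / 2) * cd ^ (m / 2))))

/-- the correction `∑_{m ≥ 1} corrCoef m * p_{2m}(x_1, …, x_n)`, graded by the degree -/
noncomputable def corr (n : ℕ) : PowerSeries (Rat n) :=
  PowerSeries.mk fun N => if Even N then
    algebraMap (MvPolynomial (Fin n) Coef) (Rat n) (C (corrCoef (N / 2)) * psum (Fin n) Coef N)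
  else 0

end Q226.HLm
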