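import Pool.Agent.Q226.HLm.Om

set_option autoImplicit false
set_option linter.unusedSectionVars false

namespace Q226.HLm

open MvPolynomial Finset

variable {K : Type} [Field K] [Algebra Coef K] {n : ℕ}

/-- one term of the Hall-Littlewood polynomials for `t = -1` -/
noncomputable def Tm (ξ : Fin n → K) (α : Fin n → ℕ) : K :=
  (∏ i, ξ i ^ α i) * ∏ i, ∏ j, if α j < α i then (ξ i + ξ j) / (ξ i - ξ j) else 1

/-- the value of the part of degree `N` of `w` at a point -/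
noncomputable def wv (ξ : Fin n → K) (N : ℕ) : K :=
  ∑ α ∈ Finset.Nat.antidiagonalTuple n N, algebraMap Coef K (Om α) * Tm ξ α

lemma wv_perm (ξ : Fin n → K) (σ : Equiv.Perm (Fin n)) (N : ℕ) : wv (ξ ∘ σ) N = wv ξ N := by
  unfold wv
  symm
  refine Finset.sum_bij' (fun α _ => α ∘ σ) (fun α _ => α ∘ σ.symm) ?_ ?_ ?_ ?_ ?_
  · intro α hα
    rw [Finset.Nat.mem_antidiagonalTuple] at hα ⊢
    rw [← hα]
    exact Equiv.sum_comp σ α
  · intro α hα
    rw [Finset.Nat.mem_antidiagonalTuple] at hα ⊢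
    rw [← hα]
    exact Equiv.sum_comp σ.symm α
  · intro α _
    funext i
    simp
  · intro α _
    funext i
    simp
  · intro α _
    rw [Om_perm]
    congr 1
    unfold Tm
    congr 1
    · exact (Equiv.prod_comp σ (fun i => ξ i ^ α i)).symm
    · rw [← Equiv.prod_comp σ]
      apply Finset.prod_congr rfl
      intro i _
      rw [← Equiv.prod_comp σ]
      rfl

lemma sum_adT_cons {M : Type} [AddCommMonoid M] (N : ℕ) (g : (Fin (n + 1) → ℕ) → M) :
    ∑ α ∈ Finset.Nat.antidiagonalTuple (n + 1) N, g α =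
      ∑ p ∈ antidiagonal N, ∑ β ∈ Finset.Nat.antidiagonalTuple n p.2, g (Fin.cons p.1 β) := by
  rw [Finset.sum_sigma']
  refine Finset.sum_bij' (fun α _ => ⟨(α 0, ∑ i : Fin n, α i.succ), Fin.tail α⟩)
    (fun s _ => Fin.cons s.1.1 s.2) ?_ ?_ ?_ ?_ ?_
  · intro α hα
    rw [Finset.Nat.mem_antidiagonalTuple, Fin.sum_univ_succ] at hα
    rw [mem_sigma, HasAntidiagonal.mem_antidiagonal, Finset.Nat.mem_antidiagonalTuple]
    exact ⟨hα, rfl⟩
  · intro s hs
    rw [mem_sigma, HasAntidiagonal.mem_antidiagonal, Finset.Nat.mem_antidiagonalTuple] at hs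
    rw [Finset.Nat.mem_antidiagonalTuple, Fin.sum_univ_succ]
    simp only [Fin.cons_zero, Fin.cons_succ]
    rw [hs.2, hs.1]
  · intro α _
    exact Fin.cons_self_tail α
  · rintro ⟨⟨a, b⟩, β⟩ hs
    rw [mem_sigma, HasAntidiagonal.mem_antidiagonal, Finset.Nat.mem_antidiagonalTuple] at hs
    simp only at hs
    obtain ⟨h1, h2⟩ := hs
    subst h2
    simp [Fin.cons_succ, Fin.cons_zero]
  · intro α _
    simp

lemma Tm_cons (t : K) (ξ : Fin n → K) (r : ℕ) (β : Fin n → ℕ) :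
    Tm (Fin.cons t ξ : Fin (n + 1) → K) (Fin.cons r β) =
      t ^ r * (∏ i, (if β i < r then (t + ξ i) / (t - ξ i) else 1) *
        (if r < β i then (ξ i + t) / (ξ i - t) else 1)) * Tm ξ β := by
  unfold Tm
  simp only [Fin.prod_univ_succ, Fin.cons_zero, Fin.cons_succ, lt_irrefl, if_false, one_mul]
  rw [Finset.prod_mul_distrib, Finset.prod_mul_distrib]
  ring

lemma wv_cons_zero (ξ : Fin n → K) (hξ : ∀ i, ξ i ≠ 0) (N : ℕ) :
    wv (Fin.cons 0 ξ : Fin (n + 1) → K) N = wv ξ N := by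
  unfold wv
  rw [sum_adT_cons, Finset.sum_eq_single (0, N)]
  · apply Finset.sum_congr rfl
    intro β _
    rw [Om_cons_zero, Tm_cons]
    congr 1
    have : (∏ i, (if β i < 0 then ((0 : K) + ξ i) / (0 - ξ i) else 1) *
        (if 0 < β i then (ξ i + 0) / (ξ i - 0) else 1)) = 1 := by
      apply Finset.prod_eq_one
      intro i _
      rw [if_neg (by omega), one_mul]
      split_ifs
      · rw [add_zero, sub_zero, div_self (hξ i)]
      · rfl
    rw [this]
    simp
  · rintro ⟨a, b⟩ hp hne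
    rw [HasAntidiagonal.mem_antidiagonal] at hp
    simp only at hp
    have ha : a ≠ 0 := by
      intro ha
      apply hne
      rw [ha, zero_add] at hp
      rw [ha, hp]
    apply Finset.sum_eq_zero
    intro β _
    rw [Tm_cons]
    simp [ha]
  · intro h
    exact absurd (by simp) h

/-- two opposite variables -/
lemma Tm_cons_cons (t : K) (ξ : Fin n → K) (h1 : ∀ i, ξ i ≠ t)
    (hm : ∀ i, ξ i ≠ -t) (r s : ℕ) (β : Fin n → ℕ) :
    Tm (Fin.cons t (Fin.cons (-t) ξ : Fin (n + 1) → K) : Fin (n + 1 + 1) → K)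
      (Fin.cons r (Fin.cons s β : Fin (n + 1) → ℕ)) =
      if r = s then (-1) ^ r * t ^ (2 * r) * Tm ξ β else 0 := by
  rw [Tm_cons, Tm_cons, Fin.prod_univ_succ]
  simp only [Fin.cons_zero, Fin.cons_succ]
  rcases lt_trichotomy r s with h | h | h
  · rw [if_neg (by omega : ¬ r = s), if_neg (by omega : ¬ s < r), if_pos h]
    simp
  rotate_left
  · rw [if_neg (by omega : ¬ r = s), if_pos h, if_neg (by omega : ¬ r < s)]
    simp
  · subst h
    rw [if_pos rfl, if_neg (lt_irrefl r), if_neg (lt_irrefl r), one_mul, one_mul]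
    have key : ∀ i, ((if β i < r then (t + ξ i) / (t - ξ i) else 1) *
        (if r < β i then (ξ i + t) / (ξ i - t) else 1)) *
        ((if β i < r then (-t + ξ i) / (-t - ξ i) else 1) *
        (if r < β i then (ξ i + -t) / (ξ i - -t) else 1)) = 1 := by
      intro i
      have e1 : t - ξ i ≠ 0 := sub_ne_zero.mpr (h1 i).symm
      have e2 : -t - ξ i ≠ 0 := sub_ne_zero.mpr (hm i).symm
      have e3 : ξ i - t ≠ 0 := sub_ne_zero.mpr (h1 i)
      have e4 : ξ i - -t ≠ 0 := sub_ne_zero.mpr (hm i)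
      split_ifs
      · omega
      · rw [mul_one, mul_one, div_mul_div_comm, div_eq_one_iff_eq (mul_ne_zero e1 e2)]
        ring
      · rw [one_mul, one_mul, div_mul_div_comm, div_eq_one_iff_eq (mul_ne_zero e3 e4)]
        ring
      · ring
    have key2 := Finset.prod_congr (rfl : (univ : Finset (Fin n)) = univ) (fun i _ => key i)
    rw [Finset.prod_mul_distrib, Finset.prod_const_one] at key2
    rw [neg_pow, two_mul, pow_add]
    linear_combination (t ^ r * ((-1) ^ r * t ^ r) * Tm ξ β) * key2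

lemma sum_pair {M : Type} [AddCommMonoid M] (N : ℕ) (g : ℕ → ℕ → M) :
    ∑ p ∈ antidiagonal N, ∑ q ∈ antidiagonal p.2, (if p.1 = q.1 then g p.1 q.2 else 0) =
      ∑ p ∈ antidiagonal N, if Even p.1 then g (p.1 / 2) p.2 else 0 := by
  rw [Finset.sum_sigma', ← Finset.sum_filter, ← Finset.sum_filter]
  refine Finset.sum_bij' (fun s _ => (2 * s.1.1, s.2.2))
    (fun u _ => ⟨(u.1 / 2, u.1 / 2 + u.2), (u.1 / 2, u.2)⟩) ?_ ?_ ?_ ?_ ?_
  · rintro ⟨⟨a, b⟩, ⟨c, d⟩⟩ hs
    simp only [mem_filter, mem_sigma, HasAntidiagonal.mem_antidiagonal] at hs ⊢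
    refine ⟨by omega, even_two_mul _⟩
  · rintro ⟨a, b⟩ hs
    simp only [mem_filter, mem_sigma, HasAntidiagonal.mem_antidiagonal] at hs ⊢
    obtain ⟨h1, ⟨m, h2⟩⟩ := hs
    refine ⟨⟨by omega, trivial⟩, trivial⟩
  · rintro ⟨⟨a, b⟩, ⟨c, d⟩⟩ hs
    simp only [mem_filter, mem_sigma, HasAntidiagonal.mem_antidiagonal] at hs ⊢
    obtain ⟨⟨h1, h2⟩, h3⟩ := hs
    have e1 : 2 * a / 2 = a := by omega
    rw [e1]
    subst h3
    subst h2
    rfl
  · rintro ⟨a, b⟩ hs
    simp only [mem_filter, HasAntidiagonal.mem_antidiagonal] at hs ⊢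
    obtain ⟨h1, ⟨m, h2⟩⟩ := hs
    ext
    · simp; omega
    · rfl
  · rintro ⟨⟨a, b⟩, ⟨c, d⟩⟩ hs
    simp

/-- the series `∑_r κ_r (-1)^r t^(2r) z^(2r)` -/
noncomputable def Kc {A : Type} [CommRing A] [Algebra Coef A] (t : A) : PowerSeries A :=
  PowerSeries.mk fun u => if Even u then
    algebraMap Coef A (kap (u / 2)) * ((-1) ^ (u / 2) * t ^ u) else 0

lemma wv_pair (t : K) (ξ : Fin n → K) (h1 : ∀ i, ξ i ≠ t) (hm : ∀ i, ξ i ≠ -t) (N : ℕ) :
    wv (Fin.cons t (Fin.cons (-t) ξ : Fin (n + 1) → K) : Fin (n + 1 + 1) → K) N =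
      ∑ p ∈ antidiagonal N, PowerSeries.coeff p.1 (Kc t) * wv ξ p.2 := by
  unfold wv
  rw [sum_adT_cons]
  have h : ∀ p ∈ antidiagonal N, ∑ β ∈ Finset.Nat.antidiagonalTuple (n + 1) p.2,
      algebraMap Coef K (Om (Fin.cons p.1 β : Fin (n + 1 + 1) → ℕ)) *
        Tm (Fin.cons t (Fin.cons (-t) ξ : Fin (n + 1) → K) : Fin (n + 1 + 1) → K)
          (Fin.cons p.1 β) =
      ∑ q ∈ antidiagonal p.2, (if p.1 = q.1 then
        (algebraMap Coef K (kap p.1) * ((-1) ^ p.1 * t ^ (2 * p.1))) * wv ξ q.2 else 0) := by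
    intro p _
    rw [sum_adT_cons]
    apply Finset.sum_congr rfl
    intro q _
    split_ifs with hpq
    · rw [wv, Finset.mul_sum]
      apply Finset.sum_congr rfl
      intro β _
      rw [Tm_cons_cons t ξ h1 hm, if_pos hpq, ← hpq, Om_cons_cons, map_mul]
      ring
    · apply Finset.sum_eq_zero
      intro β _
      rw [Tm_cons_cons t ξ h1 hm, if_neg hpq, mul_zero]
  rw [Finset.sum_congr rfl h, sum_pair N (fun r k =>
    (algebraMap Coef K (kap r) * ((-1) ^ r * t ^ (2 * r))) * wv ξ k)]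
  apply Finset.sum_congr rfl
  intro p _
  rw [Kc, PowerSeries.coeff_mk]
  split_ifs with he
  · have : 2 * (p.1 / 2) = p.1 := by
      obtain ⟨m, hm⟩ := he
      omega
    rw [this]
    rfl
  · rw [zero_mul]

end Q226.HLm
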