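import Mathlib

set_option autoImplicit false

namespace Q226.HLm

open PowerSeries

set_option linter.unusedSectionVars false

variable {A B : Type*} [CommRing A] [CommRing B] [Algebra ℚ A] [Algebra ℚ B]

lemma hasSubst_sub_one {f : A⟦X⟧} (hf : constantCoeff f = 1) : HasSubst (f - 1 : A⟦X⟧) :=
  HasSubst.of_constantCoeff_zero' (by simp [hf])

lemma map_logOf (h : A →+* B) {f : A⟦X⟧} (hf : constantCoeff f = 1) :
    PowerSeries.map h (logOf f) = logOf (PowerSeries.map h f) := by
  rw [logOf_eq, logOf_eq]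
  have := PowerSeries.map_subst (hasSubst_sub_one hf) (h := h) (log A)
  rw [map_log] at this
  rw [show PowerSeries.map h f - 1 = PowerSeries.map h (f - 1) by simp]
  exact this

lemma deriv_logOf {f : A⟦X⟧} (hf : constantCoeff f = 1) :
    f * d⁄dX A (logOf f) = d⁄dX A f := by
  rw [logOf_eq, derivative_subst (hasSubst_sub_one hf), deriv_log]
  have h1 : ((1 : A⟦X⟧) + X) * (mk fun n ↦ algebraMap ℚ A ((-1 : ℚ) ^ n)) = 1 := by
    ext n
    rw [add_mul, one_mul, map_add, coeff_mk]
    cases n with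
    | zero => simp
    | succ n =>
      rw [coeff_succ_X_mul, coeff_mk]
      simp only [map_pow, map_neg, map_one, coeff_one, pow_succ]
      simp
  have h2 := congrArg (PowerSeries.subst (f - 1 : A⟦X⟧)) h1
  rw [subst_mul (hasSubst_sub_one hf), subst_add (hasSubst_sub_one hf)] at h2
  have h3 : PowerSeries.subst (f - 1 : A⟦X⟧) (1 : A⟦X⟧) = 1 := by
    rw [← coe_substAlgHom (hasSubst_sub_one hf), map_one]
  rw [h3, subst_X (hasSubst_sub_one hf)] at h2
  have h4 : (1 : A⟦X⟧) + (f - 1) = f := by ring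
  have h5 : f * (PowerSeries.subst (f - 1 : A⟦X⟧) (mk fun n ↦ algebraMap ℚ A ((-1 : ℚ) ^ n)) : A⟦X⟧) = 1 := by
    rwa [h4] at h2
  rw [← mul_assoc, h5, one_mul]
  simp

lemma unit_of_const {f : A⟦X⟧} (hf : constantCoeff f = 1) : IsUnit f := by
  rw [PowerSeries.isUnit_iff_constantCoeff, hf]
  exact isUnit_one

/-- uniqueness of the logarithm -/
lemma eq_logOf [IsAddTorsionFree A] {f g : A⟦X⟧} (hf : constantCoeff f = 1)
    (hg : constantCoeff g = 0) (h : f * d⁄dX A g = d⁄dX A f) : g = logOf f := by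
  apply PowerSeries.derivative.ext
  · apply (unit_of_const hf).mul_left_cancel
    rw [h, deriv_logOf hf]
  · rw [hg, constantCoeff_logOf hf]

lemma logOf_mul [IsAddTorsionFree A] {f g : A⟦X⟧} (hf : constantCoeff f = 1)
    (hg : constantCoeff g = 1) : logOf (f * g) = logOf f + logOf g := by
  symm
  apply eq_logOf
  · simp [hf, hg]
  · rw [map_add, constantCoeff_logOf hf, constantCoeff_logOf hg, add_zero]
  · rw [map_add, mul_add, Derivation.leibniz, smul_eq_mul, smul_eq_mul]
    have h1 := deriv_logOf hf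
    have h2 := deriv_logOf hg
    calc f * g * d⁄dX A (logOf f) + f * g * d⁄dX A (logOf g)
        = g * (f * d⁄dX A (logOf f)) + f * (g * d⁄dX A (logOf g)) := by ring
      _ = g * d⁄dX A f + f * d⁄dX A g := by rw [h1, h2]
      _ = _ := by ring

end Q226.HLm
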