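import Pool.Agent.Q226.HLm.Poly
import Pool.Agent.Q226.HLm.Log

set_option autoImplicit false
set_option linter.unusedSectionVars false

namespace Q226.HLm

open PowerSeries Finset

variable {A : Type} [CommRing A] [Algebra ℚ A] [IsAddTorsionFree A]

lemma log_one_sub (k : ℕ) (hk : 0 < k) (q : A) :
    (PowerSeries.mk fun N => if k ∣ N ∧ N ≠ 0 then
      algebraMap ℚ A (-(k / N)) * q ^ (N / k) else 0) = logOf (1 - C q * X ^ k : A⟦X⟧) := by
  apply eq_logOf
  · simp [hk.ne']
  · rw [← coeff_zero_eq_constantCoeff_apply, coeff_mk, if_neg (by simp)]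
  · ext N
    have hd : ∀ M, coeff M (d⁄dX A (PowerSeries.mk fun N => if k ∣ N ∧ N ≠ 0 then
      algebraMap ℚ A (-(k / N)) * q ^ (N / k) else 0)) =
        if k ∣ M + 1 then -(k : A) * q ^ ((M + 1) / k) else 0 := by
      intro M
      rw [coeff_derivative, coeff_mk]
      by_cases h : k ∣ M + 1
      · rw [if_pos ⟨h, by omega⟩, if_pos h]
        have h1 : (algebraMap ℚ A (-(k / ((M + 1 : ℕ) : ℚ)))) * ((M : A) + 1) = -(k : A) := by
          have h2 : ((M : A) + 1) = algebraMap ℚ A ((M + 1 : ℕ) : ℚ) := by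
            rw [map_natCast]; push_cast; rfl
          have h3 : (-(k / ((M + 1 : ℕ) : ℚ))) * ((M + 1 : ℕ) : ℚ) = -(k : ℚ) := by
            have : ((M + 1 : ℕ) : ℚ) ≠ 0 := by positivity
            field_simp
          rw [h2, ← map_mul, h3, map_neg, map_natCast]
        rw [mul_right_comm, h1]
      · rw [if_neg (fun h1 => h h1.1), if_neg h, zero_mul]
    have hU : coeff N (d⁄dX A (1 - C q * X ^ k : A⟦X⟧)) = if N + 1 = k then -(k : A) * q else 0 := by
      rw [coeff_derivative, map_sub, coeff_C_mul, coeff_X_pow, coeff_one]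
      by_cases h : N + 1 = k
      · rw [if_neg (by omega), if_pos h, if_pos h, ← h]
        push_cast
        ring
      · rw [if_neg (by omega), if_neg h, if_neg h]
        ring
    rw [hU, sub_mul, one_mul, map_sub, hd, mul_assoc, coeff_C_mul, coeff_X_pow_mul', hd]
    by_cases h : k ∣ N + 1
    · obtain ⟨m, hm⟩ := h
      have hm0 : m ≠ 0 := by
        rintro rfl
        simp at hm
      obtain ⟨m', rfl⟩ := Nat.exists_eq_succ_of_ne_zero hm0
      rcases Nat.eq_zero_or_pos m' with h0 | h0
      · subst h0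
        have h1 : N + 1 = k := by simpa using hm
        rw [if_pos (by rw [h1]), if_neg (by omega), if_pos h1, h1, Nat.div_self hk]
        ring
      · have h1 : k ≤ N := by
          have : k * 2 ≤ k * (m' + 1) := Nat.mul_le_mul_left k (by omega)
          rw [Nat.succ_eq_add_one] at hm
          omega
        have h2 : N - k + 1 = k * m' := by
          have : k * (m' + 1) = k * m' + k := by ring
          rw [Nat.succ_eq_add_one] at hm
          omega
        have h3 : N + 1 ≠ k := by
          intro h4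
          omega
        rw [if_pos ⟨_, hm⟩, if_pos h1, if_pos ⟨_, h2⟩, if_neg h3, hm, h2,
          Nat.mul_div_cancel_left _ hk, Nat.mul_div_cancel_left _ hk, Nat.succ_eq_add_one, pow_succ]
        ring
    · have h3 : N + 1 ≠ k := by
        intro h4
        exact h (h4 ▸ dvd_rfl)
      rw [if_neg h, if_neg h3]
      by_cases h1 : k ≤ N
      · have h5 : ¬ k ∣ N - k + 1 := by
          intro h6
          apply h
          have : N + 1 = (N - k + 1) + k := by omega
          rw [this]
          exact Dvd.dvd.add h6 dvd_rfl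
        rw [if_pos h1, if_neg h5]
        ring
      · rw [if_neg h1]
        ring

variable [Algebra Coef A]

/-- the values of the products `ac` and `bd` -/
noncomputable def PP (A : Type) [CommRing A] [Algebra Coef A] : A := algebraMap Coef A (ca * cc)
noncomputable def QQ (A : Type) [CommRing A] [Algebra Coef A] : A := algebraMap Coef A (cb * cd)

lemma kap_eq (r : ℕ) : kap r = (ca * cc) ^ ((r + 1) / 2) * (cb * cd) ^ (r / 2) := by
  simp only [kap, wt, if_true, Bool.false_eq_true, if_false]
  rw [mul_pow, mul_pow]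
  ring

lemma Kc_mul (t : A) : Kc t * (1 - C (PP A * QQ A * t ^ 4) * X ^ 4) =
    1 - C (PP A * t ^ 2) * X ^ 2 := by
  ext N
  rw [mul_sub, mul_one, map_sub, mul_comm (Kc t), mul_assoc, coeff_C_mul, coeff_X_pow_mul',
    map_sub, coeff_one, coeff_C_mul, coeff_X_pow, Kc, coeff_mk, coeff_mk]
  by_cases h4 : 4 ≤ N
  · rw [if_pos h4, if_neg (by omega : ¬ N = 0), if_neg (by omega : ¬ N = 2)]
    by_cases he : Even N
    · have he4 : Even (N - 4) := by
        obtain ⟨m, hm⟩ := he
        exact ⟨m - 2, by omega⟩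
      rw [if_pos he, if_pos he4]
      have h1 : N / 2 = (N - 4) / 2 + 2 := by omega
      have h2 : N = (N - 4) + 4 := by omega
      have h3 : kap (N / 2) = (ca * cc) * (cb * cd) * kap ((N - 4) / 2) := by
        rw [kap_eq, kap_eq, h1]
        have e1 : ((N - 4) / 2 + 2 + 1) / 2 = ((N - 4) / 2 + 1) / 2 + 1 := by omega
        have e2 : ((N - 4) / 2 + 2) / 2 = ((N - 4) / 2) / 2 + 1 := by omega
        rw [e1, e2, pow_succ, pow_succ]
        ring
      have h5 : (-1 : A) ^ (N / 2) = (-1) ^ ((N - 4) / 2) := by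
        rw [h1, pow_add]
        ring
      have h6 : t ^ N = t ^ (N - 4) * t ^ 4 := by
        conv_lhs => rw [h2]
        rw [pow_add]
      rw [h3, h5, h6, map_mul, map_mul, PP, QQ]
      ring
    · have he4 : ¬ Even (N - 4) := by
        rintro ⟨m, hm⟩
        exact he ⟨m + 2, by omega⟩
      rw [if_neg he, if_neg he4]
      ring
  · rw [if_neg h4]
    have : N = 0 ∨ N = 1 ∨ N = 2 ∨ N = 3 := by omega
    rcases this with rfl | rfl | rfl | rfl
    · simp [kap_eq]
    · simp
    · simp [kap_eq, PP, even_two]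
    · have : ¬ Even 3 := by decide
      simp [this]

/-- the correction for the two variables `t, -t` -/
noncomputable def corrT (t : A) : PowerSeries A :=
  PowerSeries.mk fun N => if Even N then algebraMap Coef A (corrCoef (N / 2)) * (2 * t ^ N) else 0

lemma alg_C (q : ℚ) : algebraMap Coef A (MvPolynomial.C q) = algebraMap ℚ A q := by
  have : (algebraMap Coef A).comp MvPolynomial.C = algebraMap ℚ A := Subsingleton.elim _ _
  rw [← this]
  rfl

lemma constantCoeff_Kc (t : A) : constantCoeff (Kc t) = 1 := by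
  rw [← coeff_zero_eq_constantCoeff_apply, Kc, coeff_mk]
  simp [kap_zero]

lemma log_Kc (t : A) : logOf (Kc t) + corrT t = 0 := by
  have h1 := congrArg logOf (Kc_mul t)
  rw [logOf_mul (constantCoeff_Kc t) (by simp), ← log_one_sub 4 (by norm_num),
    ← log_one_sub 2 (by norm_num)] at h1
  have h2 : logOf (Kc t) = (PowerSeries.mk fun N => if 2 ∣ N ∧ N ≠ 0 then
      algebraMap ℚ A (-((2 : ℕ) / N)) * (PP A * t ^ 2) ^ (N / 2) else 0) -
      (PowerSeries.mk fun N => if 4 ∣ N ∧ N ≠ 0 then
      algebraMap ℚ A (-((4 : ℕ) / N)) * (PP A * QQ A * t ^ 4) ^ (N / 4) else 0) := by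
    rw [← h1]; ring
  rw [h2]
  ext N
  rw [map_add, map_sub, coeff_mk, coeff_mk, corrT, coeff_mk, map_zero]
  by_cases h0 : N = 0
  · subst h0
    simp [corrCoef]
  by_cases he : Even N
  · obtain ⟨m, hm⟩ := he
    have hN : N = 2 * m := by omega
    have hm0 : m ≠ 0 := by omega
    have hmq : (m : ℚ) ≠ 0 := by exact_mod_cast hm0
    have c2 : 2 ∣ N ∧ N ≠ 0 := ⟨⟨m, hN⟩, h0⟩
    have cE : Even N := ⟨m, hm⟩
    have e1 : (-((2 : ℕ) / ((2 * m : ℕ) : ℚ))) = -(2 * (1 / (2 * m))) := by
      push_cast
      field_simp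
    by_cases hodd : Odd m
    · have c4 : ¬ (4 ∣ N ∧ N ≠ 0) := by
        rintro ⟨⟨j, hj⟩, -⟩
        obtain ⟨i, hi⟩ := hodd
        omega
      rw [if_pos c2, if_pos cE, if_neg c4, hN, Nat.mul_div_cancel_left _ (by norm_num : 0 < 2),
        corrCoef, if_neg hm0,
        if_pos hodd, map_mul, alg_C, e1, map_neg, map_mul, map_ofNat, map_mul, PP, map_mul,
        map_pow, map_pow]
      ring
    · obtain ⟨j, hj⟩ := Nat.not_odd_iff_even.mp hodd
      have hj2 : m / 2 = j := by omega
      have hj4 : 2 * m / 4 = j := by omega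
      have c4 : 4 ∣ N ∧ N ≠ 0 := ⟨⟨j, by omega⟩, h0⟩
      have e2 : (-((4 : ℕ) / ((2 * m : ℕ) : ℚ))) = -(4 * (1 / (2 * m))) := by
        push_cast
        field_simp
      rw [if_pos c2, if_pos cE, if_pos c4, hN, Nat.mul_div_cancel_left _ (by norm_num : 0 < 2),
        corrCoef, if_neg hm0, if_neg hodd, map_mul, alg_C, e1,
        e2, hj2, hj4, map_neg, map_neg, map_mul, map_mul, map_ofNat, map_ofNat, PP, QQ]
      simp only [map_mul, map_sub, map_pow, map_ofNat]
      have hmm : m = 2 * j := by omega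
      generalize algebraMap ℚ A (1 / (2 * (m : ℚ))) = ρ
      rw [hmm]
      ring
  · have h2 : ¬ 2 ∣ N := fun h => he (even_iff_two_dvd.mpr h)
    have h4 : ¬ 4 ∣ N := fun h => h2 (dvd_trans (by norm_num) h)
    rw [if_neg (fun h => h2 h.1), if_neg (fun h => h4 h.1), if_neg he]
    ring

end Q226.HLm
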