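import Pool.Agent.Q226.HLm.LogK
import Pool.Agent.Q226.HLm.Crit2

set_option autoImplicit false
set_option linter.unusedSectionVars false

namespace Q226.HLm

open Finset

lemma w_coeff (n N : ℕ) : PowerSeries.coeff N (w n (-1)) = wv (x n) N := by
  rw [w, PowerSeries.coeff_mk]
  unfold wv HL rearr
  have h1 : ∀ p : N.Partition, algebraMap Coef (Rat n) (omega (p.parts.sort (· ≥ ·))) *
      (∑ α ∈ (Finset.Nat.antidiagonalTuple n N).filter (fun α =>
        ((univ : Finset (Fin n)).val.map α).filter (· ≠ 0) = p.parts),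
      (∏ i, x n i ^ α i) * ∏ i, ∏ j, if α j < α i then
        (x n i - algebraMap ℚ (Rat n) (-1) * x n j) / (x n i - x n j) else 1) =
      ∑ α ∈ Finset.Nat.antidiagonalTuple n N,
        if ((univ : Finset (Fin n)).val.map α).filter (· ≠ 0) = p.parts then
          algebraMap Coef (Rat n) (Om α) * Tm (x n) α else 0 := by
    intro p
    rw [Finset.mul_sum, Finset.sum_filter]
    apply Finset.sum_congr rfl
    intro α _
    split_ifs with h
    · rw [Om, h]
      unfold Tm
      simp only [map_neg, map_one, neg_mul, one_mul, sub_neg_eq_add]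
    · rfl
  rw [Finset.sum_congr rfl fun p _ => h1 p, Finset.sum_comm]
  apply Finset.sum_congr rfl
  intro α hα
  rw [Finset.Nat.mem_antidiagonalTuple] at hα
  have hs : ((univ : Finset (Fin n)).val.map α).sum = N := hα
  rw [Finset.sum_eq_single (Nat.Partition.ofSums N _ hs)]
  · exact if_pos rfl
  · intro p _ hp
    rw [if_neg]
    intro h
    apply hp
    ext1
    exact h.symm
  · intro h
    exact absurd (Finset.mem_univ _) h

lemma alg_wp (n N : ℕ) :
    algebraMap (MvPolynomial (Fin n) Coef) (Rat n) (wp n N) = wv (x n) N := by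
  rw [alg_eq, aeval_wp _ x_inj]

/-- `w(x; -1)` with polynomial coefficients -/
noncomputable def Wp (n : ℕ) : PowerSeries (MvPolynomial (Fin n) Coef) := PowerSeries.mk (wp n)

lemma map_Wp (n : ℕ) :
    PowerSeries.map (algebraMap (MvPolynomial (Fin n) Coef) (Rat n)) (Wp n) = w n (-1) := by
  ext N
  rw [PowerSeries.coeff_map, Wp, PowerSeries.coeff_mk, alg_wp, w_coeff]

lemma aeval_alg {m n : ℕ} (η : Fin m → MvPolynomial (Fin n) Coef) (q : MvPolynomial (Fin m) Coef) :
    algebraMap (MvPolynomial (Fin n) Coef) (Rat n) (MvPolynomial.aeval η q) =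
      MvPolynomial.aeval (fun i => algebraMap (MvPolynomial (Fin n) Coef) (Rat n) (η i)) q := by
  have h : (IsScalarTower.toAlgHom Coef (MvPolynomial (Fin n) Coef) (Rat n)).comp
      (MvPolynomial.aeval η) = MvPolynomial.aeval
        (fun i => algebraMap (MvPolynomial (Fin n) Coef) (Rat n) (η i)) := by
    apply MvPolynomial.algHom_ext
    intro i
    simp
  rw [← h]
  rfl

lemma x_ne_zero {n : ℕ} (i : Fin n) : x n i ≠ 0 := by
  rw [x, Ne, IsFractionRing.to_map_eq_zero_iff]
  exact MvPolynomial.X_ne_zero i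

lemma x_ne_neg {n : ℕ} {i j : Fin n} (hij : i ≠ j) : x n i ≠ -x n j := by
  intro h
  rw [x, x, ← map_neg] at h
  have h2 := alg_inj h
  have h3 := congrArg (MvPolynomial.eval (fun k => if k = i then (1 : Coef) else 0)) h2
  simp [hij.symm] at h3

lemma wp_zero (n N : ℕ) : MvPolynomial.aeval
    (Fin.cons 0 MvPolynomial.X : Fin (n + 1) → MvPolynomial (Fin n) Coef) (wp (n + 1) N) =
      wp n N := by
  apply alg_inj
  rw [aeval_alg, alg_wp]
  have h : (fun i => algebraMap (MvPolynomial (Fin n) Coef) (Rat n)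
      ((Fin.cons 0 MvPolynomial.X : Fin (n + 1) → MvPolynomial (Fin n) Coef) i)) =
      (Fin.cons 0 (x n) : Fin (n + 1) → Rat n) := by
    funext i
    refine Fin.cases ?_ (fun j => ?_) i
    · simp
    · simp [x]
  rw [h, aeval_wp, wv_cons_zero _ x_ne_zero]
  rw [Fin.cons_injective_iff]
  refine ⟨?_, x_inj⟩
  rintro ⟨i, hi⟩
  exact x_ne_zero i hi

lemma wp_pair {A : Type} [CommRing A] [Algebra Coef A] {n : ℕ} (t : A) (ξ : Fin n → A) (N : ℕ) :
    MvPolynomial.aeval (Fin.cons t (Fin.cons (-t) ξ : Fin (n + 1) → A) : Fin (n + 1 + 1) → A)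
      (wp (n + 1 + 1) N) =
      ∑ p ∈ antidiagonal N, PowerSeries.coeff p.1 (Kc t) * MvPolynomial.aeval ξ (wp n p.2) := by
  -- the generic point
  set B := MvPolynomial (Fin (n + 1)) Coef with hB
  have gen : MvPolynomial.aeval (Fin.cons (MvPolynomial.X 0) (Fin.cons (-MvPolynomial.X 0)
      (fun i => MvPolynomial.X i.succ) : Fin (n + 1) → B) : Fin (n + 1 + 1) → B)
      (wp (n + 1 + 1) N) =
      ∑ p ∈ antidiagonal N, PowerSeries.coeff p.1 (Kc (MvPolynomial.X 0 : B)) *
        MvPolynomial.aeval (fun i : Fin n => (MvPolynomial.X i.succ : B)) (wp n p.2) := by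
    apply alg_inj
    rw [aeval_alg, map_sum]
    have h : (fun i => algebraMap B (Rat (n + 1))
        ((Fin.cons (MvPolynomial.X 0) (Fin.cons (-MvPolynomial.X 0)
          (fun i => MvPolynomial.X i.succ) : Fin (n + 1) → B) : Fin (n + 1 + 1) → B) i)) =
        (Fin.cons (x (n + 1) 0) (Fin.cons (-x (n + 1) 0) (fun i : Fin n => x (n + 1) i.succ) :
          Fin (n + 1) → Rat (n + 1)) : Fin (n + 1 + 1) → Rat (n + 1)) := by
      funext i
      refine Fin.cases ?_ (fun j => Fin.cases ?_ (fun k => ?_) j) i
      · simp only [Fin.cons_zero, x]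
        rfl
      · simp only [Fin.cons_zero, Fin.cons_succ, x, map_neg]
        rfl
      · simp only [Fin.cons_succ, x]
        rfl
    have h1 : ∀ i : Fin n, x (n + 1) i.succ ≠ x (n + 1) 0 := fun i hi =>
      Fin.succ_ne_zero i (x_inj hi)
    have h2 : ∀ i : Fin n, x (n + 1) i.succ ≠ -x (n + 1) 0 := fun i =>
      x_ne_neg (Fin.succ_ne_zero i)
    rw [h, aeval_wp, wv_pair _ _ h1 h2]
    · apply Finset.sum_congr rfl
      intro p _
      rw [map_mul, aeval_alg]
      congr 1
      · simp only [Kc, PowerSeries.coeff_mk]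
        split_ifs
        · rw [map_mul, map_mul, map_pow, map_pow, map_neg, map_one,
            ← IsScalarTower.algebraMap_apply]
          rfl
        · rw [map_zero]
      · symm
        exact aeval_wp _ (x_inj.comp (Fin.succ_injective n)) p.2
    · rw [Fin.cons_injective_iff]
      refine ⟨?_, ?_⟩
      · rintro ⟨i, hi⟩
        revert hi
        refine Fin.cases ?_ (fun j => ?_) i
        · intro hi
          simp only [Fin.cons_zero] at hi
          have h3 : (2 : Rat (n + 1)) * x (n + 1) 0 = 0 := by linear_combination -hi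
          rcases mul_eq_zero.mp h3 with h4 | h4
          · exact two_ne_zero h4
          · exact x_ne_zero _ h4
        · intro hi
          simp only [Fin.cons_succ] at hi
          exact h1 j hi
      · rw [Fin.cons_injective_iff]
        refine ⟨?_, x_inj.comp (Fin.succ_injective n)⟩
        rintro ⟨i, hi⟩
        exact h2 i hi
  have h3 := congrArg (MvPolynomial.aeval (Fin.cons t ξ : Fin (n + 1) → A)) gen
  rw [map_sum, ← AlgHom.comp_apply] at h3
  have h4 : (MvPolynomial.aeval (Fin.cons t ξ : Fin (n + 1) → A)).comp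
      (MvPolynomial.aeval (Fin.cons (MvPolynomial.X 0) (Fin.cons (-MvPolynomial.X 0)
      (fun i => MvPolynomial.X i.succ) : Fin (n + 1) → B) : Fin (n + 1 + 1) → B)) =
      MvPolynomial.aeval (Fin.cons t (Fin.cons (-t) ξ : Fin (n + 1) → A) :
        Fin (n + 1 + 1) → A) := by
    apply MvPolynomial.algHom_ext
    intro i
    refine Fin.cases ?_ (fun j => Fin.cases ?_ (fun k => ?_) j) i
    · simp
    · simp
    · simp
  rw [h4] at h3
  rw [h3]
  apply Finset.sum_congr rfl
  intro p _
  rw [map_mul, ← AlgHom.comp_apply]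
  congr 1
  · simp only [Kc, PowerSeries.coeff_mk]
    split_ifs
    · rw [map_mul, AlgHom.commutes, map_mul, map_pow, map_pow, map_neg, map_one,
        MvPolynomial.aeval_X, Fin.cons_zero]
    · rw [map_zero]
  · congr 1
    apply MvPolynomial.algHom_ext
    intro i
    simp

lemma map_pair {A : Type} [CommRing A] [Algebra Coef A] {n : ℕ} (t : A) (ξ : Fin n → A) :
    PowerSeries.map (MvPolynomial.aeval (Fin.cons t (Fin.cons (-t) ξ : Fin (n + 1) → A) :
      Fin (n + 1 + 1) → A) : MvPolynomial (Fin (n + 1 + 1)) Coef →ₐ[Coef] A).toRingHom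
      (Wp (n + 1 + 1)) =
      Kc t * PowerSeries.map (MvPolynomial.aeval ξ :
        MvPolynomial (Fin n) Coef →ₐ[Coef] A).toRingHom (Wp n) := by
  ext N
  rw [PowerSeries.coeff_map, PowerSeries.coeff_mul, Wp, PowerSeries.coeff_mk]
  have := wp_pair t ξ N
  simp only [PowerSeries.coeff_map, Wp, PowerSeries.coeff_mk]
  exact this

lemma wp_const (n : ℕ) : wp n 0 = 1 := by
  apply alg_inj
  rw [alg_wp, map_one, wv]
  have h : Finset.Nat.antidiagonalTuple n 0 = {0} := by
    ext α
    rw [Finset.Nat.mem_antidiagonalTuple, mem_singleton, Finset.sum_eq_zero_iff]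
    constructor
    · intro h
      funext i
      exact h i (mem_univ i)
    · intro h
      simp [h]
  rw [h, sum_singleton]
  have h2 : Om (0 : Fin n → ℕ) = 1 := by
    unfold Om
    have : ((univ : Finset (Fin n)).val.map (0 : Fin n → ℕ)).filter (· ≠ 0) = 0 := by
      rw [Multiset.filter_eq_nil]
      intro a ha
      rw [Multiset.mem_map] at ha
      obtain ⟨i, _, rfl⟩ := ha
      simp
    rw [this]
    simp [omega]
  rw [h2]
  simp [Tm]

lemma Wp_const (n : ℕ) : PowerSeries.constantCoeff (Wp n) = 1 := by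
  rw [← PowerSeries.coeff_zero_eq_constantCoeff_apply, Wp, PowerSeries.coeff_mk, wp_const]

/-- the correction with polynomial coefficients -/
noncomputable def corrP (n : ℕ) : PowerSeries (MvPolynomial (Fin n) Coef) :=
  PowerSeries.mk fun N => if Even N then
    MvPolynomial.C (corrCoef (N / 2)) * MvPolynomial.psum (Fin n) Coef N else 0

noncomputable def Lp (n : ℕ) : PowerSeries (MvPolynomial (Fin n) Coef) :=
  PowerSeries.logOf (Wp n) + corrP n

lemma map_Lp {A : Type} [CommRing A] [Algebra ℚ A] {n : ℕ} (h : MvPolynomial (Fin n) Coef →+* A) :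
    PowerSeries.map h (Lp n) =
      PowerSeries.logOf (PowerSeries.map h (Wp n)) + PowerSeries.map h (corrP n) := by
  rw [Lp, map_add, map_logOf h (Wp_const n)]

lemma log_hom (n : ℕ) : ∀ N, (PowerSeries.coeff N (PowerSeries.logOf (Wp n))).IsHomogeneous N := by
  intro N
  induction N using Nat.strong_induction_on with
  | _ N ih =>
    rcases Nat.eq_zero_or_pos N with h0 | h0
    · subst h0
      rw [PowerSeries.coeff_zero_eq_constantCoeff_apply,
        PowerSeries.constantCoeff_logOf (Wp_const n)]
      exact MvPolynomial.isHomogeneous_zero _ _ _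
    · obtain ⟨M, rfl⟩ : ∃ M, N = M + 1 := ⟨N - 1, by omega⟩
      have h1 := congrArg (PowerSeries.coeff M) (deriv_logOf (Wp_const n))
      rw [PowerSeries.coeff_mul, PowerSeries.coeff_derivative,
        ← Finset.add_sum_erase _ _ (show (0, M) ∈ antidiagonal M by simp)] at h1
      rw [PowerSeries.coeff_zero_eq_constantCoeff_apply, Wp_const, one_mul,
        PowerSeries.coeff_derivative] at h1
      have h2 : (PowerSeries.coeff (M + 1) (PowerSeries.logOf (Wp n)) *
          ((M : MvPolynomial (Fin n) Coef) + 1)).IsHomogeneous (M + 1) := by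
        have h3 := eq_sub_of_add_eq h1
        rw [h3]
        apply MvPolynomial.IsHomogeneous.sub
        · rw [Wp, PowerSeries.coeff_mk]
          have h4 := (wp_hom n (M + 1)).mul (MvPolynomial.isHomogeneous_C (Fin n) ((M : Coef) + 1))
          rw [map_add, map_natCast, map_one, add_zero] at h4
          exact h4
        · apply MvPolynomial.IsHomogeneous.sum
          rintro ⟨a, b⟩ hp
          rw [mem_erase, HasAntidiagonal.mem_antidiagonal] at hp
          obtain ⟨hne, hab⟩ := hp
          simp only at hab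
          have ha : a ≠ 0 := by
            intro ha
            apply hne
            rw [ha, zero_add] at hab
            rw [ha, hab]
          rw [PowerSeries.coeff_derivative]
          have h5 := ih (b + 1) (by omega)
          have h6 := (wp_hom n a).mul
            (h5.mul (MvPolynomial.isHomogeneous_C (Fin n) ((b : Coef) + 1)))
          rw [map_add, map_natCast, map_one, add_zero, show a + (b + 1) = M + 1 by omega] at h6
          rw [Wp, PowerSeries.coeff_mk]
          exact h6
      have h7 := (MvPolynomial.isHomogeneous_C (Fin n)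
        (algebraMap ℚ Coef (1 / ((M : ℚ) + 1)))).mul h2
      rw [zero_add] at h7
      have h8 : MvPolynomial.C (algebraMap ℚ Coef (1 / ((M : ℚ) + 1))) *
          (PowerSeries.coeff (M + 1) (PowerSeries.logOf (Wp n)) *
          ((M : MvPolynomial (Fin n) Coef) + 1)) =
          PowerSeries.coeff (M + 1) (PowerSeries.logOf (Wp n)) := by
        have h9 : ((M : MvPolynomial (Fin n) Coef) + 1) =
            MvPolynomial.C (algebraMap ℚ Coef ((M : ℚ) + 1)) := by
          rw [map_add, map_natCast, map_one, map_add, map_natCast, map_one]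
        rw [h9, mul_left_comm, ← MvPolynomial.C_mul, ← map_mul, one_div,
          inv_mul_cancel₀ (by positivity), map_one, MvPolynomial.C_1, mul_one]
      rwa [h8] at h7

lemma Lp_hom (n N : ℕ) : (PowerSeries.coeff N (Lp n)).IsHomogeneous N := by
  rw [Lp, map_add]
  apply (log_hom n N).add
  rw [corrP, PowerSeries.coeff_mk]
  split_ifs
  · have := (MvPolynomial.isHomogeneous_C (Fin n) (corrCoef (N / 2))).mul
      (psum_hom (R := Coef) n N)
    rwa [zero_add] at this
  · exact MvPolynomial.isHomogeneous_zero _ _ _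

lemma Lp_sym (n N : ℕ) : (PowerSeries.coeff N (Lp n)).IsSymmetric := by
  intro σ
  have h := map_Lp ((MvPolynomial.rename σ : MvPolynomial (Fin n) Coef →ₐ[Coef]
    MvPolynomial (Fin n) Coef).toRingHom)
  have h1 : PowerSeries.map (MvPolynomial.rename σ : MvPolynomial (Fin n) Coef →ₐ[Coef]
      MvPolynomial (Fin n) Coef).toRingHom (Wp n) = Wp n := by
    ext1 M
    rw [PowerSeries.coeff_map, Wp, PowerSeries.coeff_mk]
    exact wp_sym n M σ
  have h2 : PowerSeries.map (MvPolynomial.rename σ : MvPolynomial (Fin n) Coef →ₐ[Coef]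
      MvPolynomial (Fin n) Coef).toRingHom (corrP n) = corrP n := by
    ext1 M
    rw [PowerSeries.coeff_map, corrP, PowerSeries.coeff_mk]
    split_ifs
    · simp [MvPolynomial.rename_psum]
    · exact map_zero _
  rw [h1, h2] at h
  have h3 := congrArg (PowerSeries.coeff N) h
  rw [PowerSeries.coeff_map] at h3
  exact h3

lemma Lp_stab (n N : ℕ) : MvPolynomial.aeval
    (Fin.cons 0 MvPolynomial.X : Fin (n + 1) → MvPolynomial (Fin n) Coef)
      (PowerSeries.coeff N (Lp (n + 1))) = PowerSeries.coeff N (Lp n) := by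
  have h := map_Lp ((MvPolynomial.aeval
    (Fin.cons 0 MvPolynomial.X : Fin (n + 1) → MvPolynomial (Fin n) Coef) :
    MvPolynomial (Fin (n + 1)) Coef →ₐ[Coef] MvPolynomial (Fin n) Coef).toRingHom)
  have h1 : PowerSeries.map (MvPolynomial.aeval
      (Fin.cons 0 MvPolynomial.X : Fin (n + 1) → MvPolynomial (Fin n) Coef) :
      MvPolynomial (Fin (n + 1)) Coef →ₐ[Coef] MvPolynomial (Fin n) Coef).toRingHom
      (Wp (n + 1)) = Wp n := by
    ext1 M
    rw [PowerSeries.coeff_map, Wp, Wp, PowerSeries.coeff_mk, PowerSeries.coeff_mk]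
    exact wp_zero n M
  have h2 : PowerSeries.map (MvPolynomial.aeval
      (Fin.cons 0 MvPolynomial.X : Fin (n + 1) → MvPolynomial (Fin n) Coef) :
      MvPolynomial (Fin (n + 1)) Coef →ₐ[Coef] MvPolynomial (Fin n) Coef).toRingHom
      (corrP (n + 1)) = corrP n := by
    ext1 M
    rw [PowerSeries.coeff_map, corrP, corrP, PowerSeries.coeff_mk, PowerSeries.coeff_mk]
    split_ifs
    · rcases Nat.eq_zero_or_pos M with h0 | h0
      · subst h0
        simp [corrCoef]
      · simp [MvPolynomial.psum, Fin.sum_univ_succ, h0.ne', MvPolynomial.algebraMap_eq]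
    · exact map_zero _
  rw [h1, h2] at h
  have h3 := congrArg (PowerSeries.coeff N) h
  rw [PowerSeries.coeff_map] at h3
  exact h3

lemma Lp_pair {A : Type} [CommRing A] [Algebra Coef A] [Algebra ℚ A] [IsAddTorsionFree A] {n : ℕ}
    (t : A) (ξ : Fin n → A) (N : ℕ) :
    MvPolynomial.aeval (Fin.cons t (Fin.cons (-t) ξ : Fin (n + 1) → A) : Fin (n + 1 + 1) → A)
      (PowerSeries.coeff N (Lp (n + 1 + 1))) =
      MvPolynomial.aeval ξ (PowerSeries.coeff N (Lp n)) := by
  have h := map_Lp ((MvPolynomial.aeval (Fin.cons t (Fin.cons (-t) ξ : Fin (n + 1) → A) :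
    Fin (n + 1 + 1) → A) : MvPolynomial (Fin (n + 1 + 1)) Coef →ₐ[Coef] A).toRingHom)
  have h' := map_Lp (MvPolynomial.aeval ξ : MvPolynomial (Fin n) Coef →ₐ[Coef] A).toRingHom
  have hc : PowerSeries.constantCoeff (PowerSeries.map (MvPolynomial.aeval ξ :
        MvPolynomial (Fin n) Coef →ₐ[Coef] A).toRingHom (Wp n)) = 1 := by
    rw [← PowerSeries.coeff_zero_eq_constantCoeff_apply, PowerSeries.coeff_map,
      PowerSeries.coeff_zero_eq_constantCoeff_apply, Wp_const, map_one]
  rw [map_pair, logOf_mul (constantCoeff_Kc t) hc] at h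
  have h2 : PowerSeries.map (MvPolynomial.aeval (Fin.cons t (Fin.cons (-t) ξ : Fin (n + 1) → A) :
      Fin (n + 1 + 1) → A) : MvPolynomial (Fin (n + 1 + 1)) Coef →ₐ[Coef] A).toRingHom
      (corrP (n + 1 + 1)) = corrT t + PowerSeries.map (MvPolynomial.aeval ξ :
        MvPolynomial (Fin n) Coef →ₐ[Coef] A).toRingHom (corrP n) := by
    ext1 M
    rw [map_add, PowerSeries.coeff_map, PowerSeries.coeff_map, corrP, corrP, corrT,
      PowerSeries.coeff_mk, PowerSeries.coeff_mk, PowerSeries.coeff_mk]
    split_ifs with he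
    · simp only [AlgHom.toRingHom_eq_coe, RingHom.coe_coe, map_mul, MvPolynomial.aeval_C,
        MvPolynomial.psum, map_sum, map_add, map_pow, MvPolynomial.aeval_X, Fin.sum_univ_succ,
        Fin.cons_zero, Fin.cons_succ, he.neg_pow]
      ring
    · simp
  rw [h2] at h
  have h3 : PowerSeries.map (MvPolynomial.aeval (Fin.cons t (Fin.cons (-t) ξ : Fin (n + 1) → A) :
      Fin (n + 1 + 1) → A) : MvPolynomial (Fin (n + 1 + 1)) Coef →ₐ[Coef] A).toRingHom
      (Lp (n + 1 + 1)) = PowerSeries.map (MvPolynomial.aeval ξ :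
        MvPolynomial (Fin n) Coef →ₐ[Coef] A).toRingHom (Lp n) := by
    rw [h, h']
    linear_combination log_Kc t
  have h4 := congrArg (PowerSeries.coeff N) h3
  rw [PowerSeries.coeff_map, PowerSeries.coeff_map] at h4
  exact h4

theorem main : ∃ Φ : ℕ → MvPolynomial ℕ Coef, ∀ n N : ℕ,
    PowerSeries.coeff N (PowerSeries.logOf (w n (-1)) + corr n) =
      algebraMap (MvPolynomial (Fin n) Coef) (Rat n)
        (MvPolynomial.aeval (fun k => MvPolynomial.psum (Fin n) Coef (2 * k + 1)) (Φ N)) := by
  have key : ∀ N, ∃ Φ : MvPolynomial ℕ Coef, ∀ n, PowerSeries.coeff N (Lp n) =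
      MvPolynomial.aeval (fun k => MvPolynomial.psum (Fin n) Coef (2 * k + 1)) Φ := by
    intro N
    apply crit (fun n => PowerSeries.coeff N (Lp n))
    · exact exists_F N (fun n => PowerSeries.coeff N (Lp n)) (fun n => Lp_sym n N)
        (fun n => Lp_hom n N) (fun n => Lp_stab n N)
    · intro n t l
      unfold ev
      have h := Lp_pair t l.get N
      have hg : (t :: -t :: l).get = (Fin.cons t (Fin.cons (-t) l.get :
          Fin (l.length + 1) → MvPolynomial (Fin n) Coef) :
          Fin (l.length + 1 + 1) → MvPolynomial (Fin n) Coef) := by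
        funext i
        refine Fin.cases ?_ (fun j => Fin.cases ?_ (fun k => ?_) j) i
        · rfl
        · rfl
        · rfl
      rw [hg]
      exact h
  choose Φ hΦ using key
  refine ⟨Φ, fun n N => ?_⟩
  rw [← hΦ]
  have h : PowerSeries.map (algebraMap (MvPolynomial (Fin n) Coef) (Rat n)) (Lp n) =
      PowerSeries.logOf (w n (-1)) + corr n := by
    rw [map_Lp, map_Wp]
    congr 1
    ext1 M
    rw [PowerSeries.coeff_map, corrP, corr, PowerSeries.coeff_mk, PowerSeries.coeff_mk]
    split_ifs
    · rfl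
    · exact map_zero _
  rw [← h, PowerSeries.coeff_map]

end Q226.HLm
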