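import Pool.Agent.Q226.HLm.Defs

set_option autoImplicit false

namespace Q226.HLm

open MvPolynomial Finset

/-- the weight of one row -/
noncomputable def wt (par : Bool) (r : ℕ) : Coef :=
  if par then ca ^ ((r + 1) / 2) * cb ^ (r / 2) else cc ^ ((r + 1) / 2) * cd ^ (r / 2)

/-- `omega` row by row -/
noncomputable def omL : Bool → List ℕ → Coef
  | _, [] => 1
  | par, r :: l => wt par r * omL (!par) l

lemma omega_eq (l : List ℕ) : omega l = omL true l := by
  induction l using omega.induct with
  | case1 => simp [omega, omL]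
  | case2 r => simp [omega, omL, wt]
  | case3 r s l ih =>
    rw [omega, ih, omL, omL]
    simp [wt]
    ring

/-- the weight of a pair of equal rows -/
noncomputable def kap (r : ℕ) : Coef := wt true r * wt false r

lemma kap_zero : kap 0 = 1 := by simp [kap, wt]

lemma omL_insert (r : ℕ) (l : List ℕ) : ∀ par : Bool,
    omL par ((l.orderedInsert (· ≥ ·) r).orderedInsert (· ≥ ·) r) = kap r * omL par l := by
  induction l with
  | nil =>
    intro par
    simp only [List.orderedInsert, ge_iff_le, le_refl, if_true, omL, mul_one, kap]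
    cases par <;> simp [mul_comm]
  | cons h l ih =>
    intro par
    by_cases hrh : h ≤ r
    · simp only [List.orderedInsert, ge_iff_le, hrh, if_true, le_refl, omL, kap]
      cases par <;> simp <;> ring
    · simp only [List.orderedInsert, ge_iff_le, hrh, if_false]
      rw [omL]
      have := ih (!par)
      simp only [ge_iff_le] at this
      rw [this, omL]
      ring

variable {n : ℕ}

/-- the weight of the partition with the parts `α_i` -/
noncomputable def Om (α : Fin n → ℕ) : Coef :=
  omega ((((univ : Finset (Fin n)).val.map α).filter (· ≠ 0)).sort (· ≥ ·))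

lemma Om_perm (α : Fin n → ℕ) (σ : Equiv.Perm (Fin n)) : Om (α ∘ σ) = Om α := by
  unfold Om
  congr 3
  rw [← Multiset.map_map]
  congr 1
  have := Finset.map_univ_equiv σ
  conv_rhs => rw [← this]
  rfl

lemma univ_map_cons (r : ℕ) (α : Fin n → ℕ) :
    (univ : Finset (Fin (n + 1))).val.map (Fin.cons r α : Fin (n + 1) → ℕ) =
      r ::ₘ (univ : Finset (Fin n)).val.map α := by
  rw [Fin.univ_succ, Finset.cons_val, Multiset.map_cons, Finset.map_val, Multiset.map_map]
  simp

lemma Om_cons_zero (α : Fin n → ℕ) : Om (Fin.cons 0 α : Fin (n + 1) → ℕ) = Om α := by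
  unfold Om
  rw [univ_map_cons]
  simp

lemma sort_cons (r : ℕ) (s : Multiset ℕ) :
    (r ::ₘ s).sort (· ≥ ·) = (s.sort (· ≥ ·)).orderedInsert (· ≥ ·) r := by
  have h1 : List.Pairwise (· ≥ ·) ((s.sort (· ≥ ·)).orderedInsert (· ≥ ·) r) :=
    (Multiset.pairwise_sort s (· ≥ ·)).orderedInsert r _
  have h2 : (((s.sort (· ≥ ·)).orderedInsert (· ≥ ·) r : List ℕ) : Multiset ℕ) = r ::ₘ s := by
    rw [Multiset.coe_eq_coe.mpr (List.perm_orderedInsert (· ≥ ·) r _), ← Multiset.cons_coe,
      Multiset.sort_eq]
  refine List.Perm.eq_of_pairwise' (Multiset.pairwise_sort _ _) h1 ?_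
  rw [← Multiset.coe_eq_coe, h2, Multiset.sort_eq]

lemma Om_cons_cons (r : ℕ) (α : Fin n → ℕ) :
    Om (Fin.cons r (Fin.cons r α : Fin (n + 1) → ℕ) : Fin (n + 1 + 1) → ℕ) = kap r * Om α := by
  by_cases hr : r = 0
  · subst hr
    rw [Om_cons_zero, Om_cons_zero, kap_zero, one_mul]
  · unfold Om
    rw [univ_map_cons, univ_map_cons, Multiset.filter_cons_of_pos (p := (· ≠ 0)) _ hr,
      Multiset.filter_cons_of_pos (p := (· ≠ 0)) _ hr, sort_cons, sort_cons, omega_eq, omega_eq,
      omL_insert]

end Q226.HLm
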