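import Pool.Agent.Q226.HLm.Fld
import Pool.Agent.Q226.HLm.Alt

set_option autoImplicit false
set_option linter.unusedSectionVars false

namespace Q226.HLm

open MvPolynomial Finset

variable {n : ℕ}

lemma prod_prs {M : Type} [CommMonoid M] (g : Fin n → Fin n → M) (hg : ∀ i, g i i = 1) :
    ∏ i, ∏ j, g i j = ∏ p ∈ prs n, g p.1 p.2 * g p.2 p.1 := by
  rw [← Finset.prod_product', Finset.univ_product_univ,
    ← Finset.prod_filter_mul_prod_filter_not univ (fun p : Fin n × Fin n => p.1 < p.2),
    Finset.prod_mul_distrib]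
  congr 1
  rw [← Finset.prod_filter_mul_prod_filter_not
    (univ.filter fun p : Fin n × Fin n => ¬ p.1 < p.2) (fun p => p.2 < p.1)]
  have h2 : ∏ p ∈ ((univ.filter fun p : Fin n × Fin n => ¬ p.1 < p.2).filter
      fun p => ¬ p.2 < p.1), g p.1 p.2 = 1 := by
    apply Finset.prod_eq_one
    intro p hp
    simp only [mem_filter, mem_univ, true_and, not_lt] at hp
    have : p.1 = p.2 := le_antisymm hp.2 hp.1
    rw [this, hg]
  rw [h2, mul_one]
  refine Finset.prod_bij' (fun p _ => (p.2, p.1)) (fun p _ => (p.2, p.1)) ?_ ?_ ?_ ?_ ?_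
  · intro p hp
    simp only [prs, mem_filter, mem_univ, true_and, not_lt] at hp ⊢
    exact hp.2
  · intro p hp
    simp only [prs, mem_filter, mem_univ, true_and, not_lt] at hp ⊢
    exact ⟨le_of_lt hp, hp⟩
  · intro p _; rfl
  · intro p _; rfl
  · intro p _; rfl

/-- the numerator of `Tm` -/
noncomputable def eT {A : Type} [CommRing A] (ξ : Fin n → A) (α : Fin n → ℕ) : A :=
  (∏ i, ξ i ^ α i) * ∏ p ∈ prs n, (if α p.2 < α p.1 then -(ξ p.1 + ξ p.2)
    else if α p.1 < α p.2 then ξ p.1 + ξ p.2 else ξ p.2 - ξ p.1)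

lemma vdm_mul_Tm {K : Type} [Field K] (ξ : Fin n → K) (hξ : Function.Injective ξ)
    (α : Fin n → ℕ) : vdm ξ * Tm ξ α = eT ξ α := by
  unfold vdm Tm eT
  rw [prod_prs _ (fun i => by simp), mul_left_comm, ← Finset.prod_mul_distrib]
  congr 1
  apply Finset.prod_congr rfl
  intro p hp
  rw [prs, mem_filter] at hp
  have e1 : ξ p.2 - ξ p.1 ≠ 0 := sub_ne_zero.mpr fun h => hp.2.ne' (hξ h)
  have e2 : ξ p.1 - ξ p.2 ≠ 0 := sub_ne_zero.mpr fun h => hp.2.ne (hξ h)
  split_ifs with h1 h2
  · omega
  · rw [mul_one, mul_div_assoc', div_eq_iff e2]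
    ring
  · rw [one_mul, mul_div_assoc', div_eq_iff e1]
    ring
  · ring

/-- the alternating numerator of the part of degree `N` of `w` -/
noncomputable def En (n N : ℕ) : MvPolynomial (Fin n) Coef :=
  ∑ α ∈ Finset.Nat.antidiagonalTuple n N, C (Om α) * eT X α

lemma aeval_eT {A : Type} [CommRing A] [Algebra Coef A] (ξ : Fin n → A) (α : Fin n → ℕ) :
    aeval ξ (eT (X : Fin n → MvPolynomial (Fin n) Coef) α) = eT ξ α := by
  unfold eT
  rw [map_mul, map_prod, map_prod]
  congr 1
  · apply Finset.prod_congr rfl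
    intro i _
    simp
  · apply Finset.prod_congr rfl
    intro p _
    split_ifs <;> simp

lemma aeval_vdm {A : Type} [CommRing A] [Algebra Coef A] (ξ : Fin n → A) :
    aeval ξ (vdm (X : Fin n → MvPolynomial (Fin n) Coef)) = vdm ξ := by
  unfold vdm
  rw [map_prod]
  simp

lemma aeval_En {K : Type} [Field K] [Algebra Coef K] (ξ : Fin n → K)
    (hξ : Function.Injective ξ) (N : ℕ) : aeval ξ (En n N) = vdm ξ * wv ξ N := by
  unfold En wv
  rw [map_sum, Finset.mul_sum]
  apply Finset.sum_congr rfl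
  intro α _
  rw [map_mul, aeval_C, aeval_eT, ← vdm_mul_Tm ξ hξ]
  ring

lemma alg_eq (q : MvPolynomial (Fin n) Coef) :
    algebraMap (MvPolynomial (Fin n) Coef) (Rat n) q = aeval (x n) q := by
  have h : (IsScalarTower.toAlgHom Coef (MvPolynomial (Fin n) Coef) (Rat n)) = aeval (x n) := by
    apply MvPolynomial.algHom_ext
    intro i
    simp [x]
  rw [← h]
  rfl

lemma alg_rename (σ : Equiv.Perm (Fin n)) (q : MvPolynomial (Fin n) Coef) :
    algebraMap (MvPolynomial (Fin n) Coef) (Rat n) (rename σ q) = aeval (x n ∘ σ) q := by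
  rw [alg_eq, aeval_rename]

lemma alg_inj : Function.Injective (algebraMap (MvPolynomial (Fin n) Coef) (Rat n)) :=
  IsFractionRing.injective _ _

lemma x_inj : Function.Injective (x n) := fun _ _ h => X_injective (alg_inj h)

lemma En_alt (N : ℕ) (i j : Fin n) (hij : i < j) : rename (Equiv.swap i j) (En n N) = -En n N := by
  apply alg_inj
  rw [alg_rename, aeval_En _ (x_inj.comp (Equiv.injective _)), vdm_perm, wv_perm, map_neg, alg_eq,
    aeval_En _ x_inj, Equiv.Perm.sign_swap hij.ne]
  simp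

lemma eT_hom (α : Fin n → ℕ) :
    (eT (X : Fin n → MvPolynomial (Fin n) Coef) α).IsHomogeneous ((∑ i, α i) + (prs n).card) := by
  unfold eT
  apply IsHomogeneous.mul
  · apply IsHomogeneous.prod
    intro i _
    exact isHomogeneous_X_pow i _
  · rw [Finset.card_eq_sum_ones]
    apply IsHomogeneous.prod
    intro p _
    split_ifs
    · exact ((isHomogeneous_X _ _).add (isHomogeneous_X _ _)).neg
    · exact (isHomogeneous_X _ _).add (isHomogeneous_X _ _)
    · exact (isHomogeneous_X _ _).sub (isHomogeneous_X _ _)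

lemma En_hom (n N : ℕ) : (En n N).IsHomogeneous (N + (prs n).card) := by
  unfold En
  apply IsHomogeneous.sum
  intro α hα
  rw [Finset.Nat.mem_antidiagonalTuple] at hα
  have := eT_hom α
  rw [hα] at this
  have h2 := (isHomogeneous_C (Fin n) (Om α)).mul this
  rwa [zero_add] at h2

lemma vdm_hom (n : ℕ) :
    (vdm (X : Fin n → MvPolynomial (Fin n) Coef)).IsHomogeneous ((prs n).card) := by
  unfold vdm
  rw [Finset.card_eq_sum_ones]
  apply IsHomogeneous.prod
  intro p _
  exact (isHomogeneous_X _ _).sub (isHomogeneous_X _ _)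

lemma exists_wp (n N : ℕ) : ∃ q : MvPolynomial (Fin n) Coef,
    En n N = vdm X * q ∧ q.IsHomogeneous N := by
  obtain ⟨q, hq⟩ := alt_dvd (En n N) (En_alt N)
  refine ⟨homogeneousComponent N q, ?_, homogeneousComponent_isHomogeneous _ _⟩
  have h1 : homogeneousComponent (N + (prs n).card) (En n N) = En n N :=
    homogeneousComponent_of_mem (En_hom n N) |>.trans (if_pos rfl)
  rw [← h1, hq]
  conv_lhs => rw [← sum_homogeneousComponent q, Finset.mul_sum, map_sum]
  have h2 : ∀ i, homogeneousComponent (N + (prs n).card)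
      (vdm (X : Fin n → MvPolynomial (Fin n) Coef) * homogeneousComponent i q) =
      if N = i then vdm X * homogeneousComponent i q else 0 := by
    intro i
    rw [homogeneousComponent_of_mem ((vdm_hom n).mul (homogeneousComponent_isHomogeneous i q))]
    by_cases h : N = i
    · rw [if_pos h, if_pos (by omega)]
    · rw [if_neg h, if_neg (by omega)]
  rw [Finset.sum_congr rfl fun i _ => h2 i, Finset.sum_ite_eq]
  split_ifs with h
  · rfl
  · rw [mem_range, not_lt] at h
    rw [homogeneousComponent_eq_zero _ _ (by omega), mul_zero]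

/-- the part of degree `N` of `w(x_1, …, x_n; -1)`, as a polynomial -/
noncomputable def wp (n N : ℕ) : MvPolynomial (Fin n) Coef := (exists_wp n N).choose

lemma wp_hom (n N : ℕ) : (wp n N).IsHomogeneous N := (exists_wp n N).choose_spec.2

lemma aeval_wp {K : Type} [Field K] [Algebra Coef K] (ξ : Fin n → K)
    (hξ : Function.Injective ξ) (N : ℕ) : aeval ξ (wp n N) = wv ξ N := by
  have h1 := aeval_En ξ hξ N
  rw [(exists_wp n N).choose_spec.1, map_mul, aeval_vdm] at h1
  exact mul_left_cancel₀ (vdm_ne_zero ξ hξ) h1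

lemma wp_sym (n N : ℕ) : (wp n N).IsSymmetric := by
  intro σ
  apply alg_inj
  rw [alg_rename, aeval_wp _ (x_inj.comp (Equiv.injective _)), wv_perm, alg_eq,
    aeval_wp _ x_inj]

end Q226.HLm
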